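import Pool.Agent.H.MP_339821_gt.Main

set_option autoImplicit false

namespace Pool.Agent.Results.MP_339821_gt.FrechetDSeparable

open Cardinal Pool.Agent.H.MP_339821_gt

/-- There is a Tychonoff Fréchet space which is d-separable but not D-separable. -/
theorem result : ∃ (X : Type) (_ : TopologicalSpace X),
    T35Space X ∧ FrechetUrysohnSpace X ∧ IsDSepLower X ∧ ¬ IsDSepUpper X := by
  have h : #(Set ℕ) ^ ℵ₀ = #(Set ℕ) := by
    simp
  exact ⟨SigmaProd (Set ℕ), inferInstance, inferInstance, frechetUrysohn, isDSepLower,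
    not_isDSepUpper h⟩

end Pool.Agent.Results.MP_339821_gt.FrechetDSeparable
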