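import Pool.Agent.H.MP_339821_gt.Cof

set_option autoImplicit false

universe u

namespace Pool.Agent.Results.MP_339821_gt.SigmaDSeparable

open Cardinal Pool.Agent.H.MP_339821_gt

/-- `Σ(2^κ)` is D-separable for every infinite cardinal `κ = #I` of countable cofinality (in ZFC). -/
theorem result (I : Type u) [Infinite I] (h : (#I).ord.cof = ℵ₀) : IsDSepUpper (SigmaProd I) :=
  isDSepUpper_of_cof h

end Pool.Agent.Results.MP_339821_gt.SigmaDSeparable
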