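import Pool.Agent.H.MP_339821_gt.Main

set_option autoImplicit false

universe u

namespace Pool.Agent.Results.MP_339821_gt.SigmaNotDSeparable

open Cardinal Pool.Agent.H.MP_339821_gt

/-- `Σ(2^κ)` is not D-separable for every infinite cardinal `κ = #I` with `κ ^ ℵ₀ = κ`
(in ZFC; for instance for `κ` the continuum). -/
theorem result (I : Type u) [Infinite I] (h : #I ^ ℵ₀ = #I) : ¬ IsDSepUpper (SigmaProd I) :=
  not_isDSepUpper h

end Pool.Agent.Results.MP_339821_gt.SigmaNotDSeparable
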